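import Pool.Agent.MP_c69980_ag.H4.SpecC
import Pool.Agent.MP_c69980_ag.H62.Good
import Pool.Agent.MP_c69980_ag.H26.Final
import Pool.Agent.MP_c69980_ag.H66.Rep

/-!
Row D2: rational functions along exhausting discs, and the final contradiction.
-/

set_option autoImplicit false

noncomputable section

namespace Pool.Agent.MP_c69980_ag.H41

open MvPolynomial Metric Filter Topology MeasureTheory Set Real
open scoped ContDiff ENNReal ComplexConjugate
open H60 (PR)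
open H4

section
open H4.H62

lemma disc (hM : MinorStmt) (hLi : Lift2Stmt) (hC : CompStmt) {n d : ℕ} {P Q : PR n}
    (hP : P.IsHomogeneous d) (hQ : Q.IsHomogeneous d) :
    ∃ A : ℝ, 0 < A ∧ ∀ (a s : ℝ) (F : ℂ → Fin n → ℂ) (B : Set ℂ) (g : ℂ → ℝ) (ρ : ℂ → ℂ) (c₀ : ℝ),
      0 < a → s < 1 → Crv (ball 0 1) F → TF c₀ (ball 0 s) B g → 0 ∈ B →
      (∀ z ∈ B, a * ‖F z‖ ^ d ≤ ‖eval (F z) P‖ ∧ a * ‖F z‖ ^ d ≤ ‖eval (F z) Q‖) →
      (∀ z ∈ ball (0 : ℂ) s, ρ =ᶠ[𝓝[≠] z] fun w => eval (F w) P / eval (F w) Q) →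
      ∃ Ψ : ℂ → Fin 2 → ℂ, Crv (ball 0 s) Ψ ∧
        (∀ z ∈ ball (0 : ℂ) s, z ∈ B → H4.sq (Ψ z) ≤ (1 + A / a ^ 2) * ‖Ψ z 0‖ ^ 2) ∧
        ∫ z, lam Ψ z * g z ≤ d * (∫ z, lam F z * g z) +
          (|log A| + |d * log n - log (a ^ 2)|) * c₀ ∧
        ∀ᵐ z, z ∈ ball (0 : ℂ) s → AnalyticAt ℂ ρ z →
          ∀ᶠ w in 𝓝 z, Ψ w 1 ≠ 0 ∧ Ψ w 0 = ρ w * Ψ w 1 := by
  obtain ⟨A₁, p₁, h₁⟩ := H62.hom_bd hP
  obtain ⟨A₂, p₂, h₂⟩ := H62.hom_bd hQ
  refine ⟨A₁ ^ 2 + A₂ ^ 2, by positivity, fun a s F B g ρ c₀ ha hs hF hg h0 hB hρ => ?_⟩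
  have s1 : ball (0 : ℂ) s ⊆ ball 0 1 := ball_subset_ball hs.le
  have s2 : ball (0 : ℂ) s ⊆ ball 0 s := subset_rfl
  have hpos : ∀ z ∈ ball (0 : ℂ) 1, 0 < ‖F z‖ := fun z hz => norm_pos_iff.2 (hF.2 z hz)
  have hQ0 : eval (F 0) Q ≠ 0 := norm_pos_iff.1
    ((mul_pos ha (pow_pos (hpos 0 (mem_ball_self one_pos)) d)).trans_le (hB 0 h0).2)
  obtain ⟨φ, Ψ, hφ, hΨ, hG⟩ := hLi 2 (fun z => ![eval (F z) P, eval (F z) Q]) s hs
    (differentiableOn_pi.2 fun i => by
      fin_cases i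
      · exact H62.ev_diff hF.1 P
      · exact H62.ev_diff hF.1 Q) ⟨0, mem_ball_self one_pos, fun h => hQ0 (congrFun h 1)⟩
  have e0 : ∀ z ∈ ball (0 : ℂ) s, eval (F z) P = φ z * Ψ z 0 := fun z hz =>
    congrFun (hG z hz) 0
  have e1 : ∀ z ∈ ball (0 : ℂ) s, eval (F z) Q = φ z * Ψ z 1 := fun z hz =>
    congrFun (hG z hz) 1
  have hΨ' : Crv (ball 0 s) Ψ := ⟨hΨ.1.mono s2, fun z hz => hΨ.2 z (s2 hz)⟩
  have up : ∀ z ∈ ball (0 : ℂ) s,
      H4.sq (Ψ z) * ‖φ z‖ ^ 2 ≤ (A₁ ^ 2 + A₂ ^ 2) * (‖F z‖ ^ 2) ^ d := fun z hz => by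
    have a1 := pow_le_pow_left₀ (norm_nonneg _) (h₁ _ (hF.2 z (s1 hz))) 2
    have a2 := pow_le_pow_left₀ (norm_nonneg _) (h₂ _ (hF.2 z (s1 hz))) 2
    rw [e0 z (s2 hz), norm_mul, mul_pow, mul_pow, ← pow_mul, mul_comm d, pow_mul] at a1
    rw [e1 z (s2 hz), norm_mul, mul_pow, mul_pow, ← pow_mul, mul_comm d, pow_mul] at a2
    rw [sq_two]
    linarith
  have lo : ∀ z ∈ ball (0 : ℂ) s, z ∈ B →
      a ^ 2 * (‖F z‖ ^ 2) ^ d ≤ ‖Ψ z 0‖ ^ 2 * ‖φ z‖ ^ 2 := fun z hz hz' => by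
    have a1 := pow_le_pow_left₀ (by positivity) (hB z hz').1 2
    rw [e0 z (s2 hz), norm_mul, mul_pow, mul_pow, ← pow_mul, mul_comm d, pow_mul] at a1
    linarith
  have ae := ae_ne (H62.ev_diff hF.1 Q) hQ0
  refine ⟨Ψ, hΨ', fun z hz hz' => ?_, ?_, ?_⟩
  · have a1 := up z hz
    have a2 := lo z hz hz'
    have a3 : 0 < a ^ 2 * (‖F z‖ ^ 2) ^ d := by
      have := hpos z (s1 hz)
      positivity
    have a4 : 0 < ‖φ z‖ ^ 2 := pos_of_mul_pos_right (a3.trans_le a2) (by positivity)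
    have a5 := mul_le_mul_of_nonneg_left a2 (by positivity : 0 ≤ (A₁ ^ 2 + A₂ ^ 2) / a ^ 2)
    rw [← mul_assoc, div_mul_cancel₀ _ (by positivity), ← mul_assoc] at a5
    have a6 := le_of_mul_le_mul_right (a1.trans a5) a4
    nlinarith [sq_nonneg ‖Ψ z 0‖]
  · refine hC n 2 _ B g F Ψ φ c₀ d _ isOpen_ball hg ⟨hF.1.mono s1, fun z hz => hF.2 z (s1 hz)⟩ hΨ'
      (hφ.mono s2) (by positivity) (ae.mono fun z hz0 hz => ?_)
    have a0 : φ z ≠ 0 := left_ne_zero_of_mul (e1 z (s2 hz) ▸ hz0 (s1 hz))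
    have a1 : 0 < ‖φ z‖ ^ 2 := pow_pos (norm_pos_iff.2 a0) 2
    have a2 := sqp (hΨ'.2 z hz)
    have a3 := hpos z (s1 hz)
    obtain ⟨-, -, -, -, m1, m2, -⟩ := hM n (F z) 0 (hF.2 z (s1 hz))
    have a4 := log_le_log (by positivity) m1
    have a5 := log_le_log (sqp (hF.2 z (s1 hz))) m2
    have hn : (0 : ℝ) < n := pos_of_mul_pos_left ((sqp (hF.2 z (s1 hz))).trans_le m2)
      (by positivity)
    rw [log_mul hn.ne' (by positivity)] at a5
    have a6 := mul_le_mul_of_nonneg_left a4 (Nat.cast_nonneg (α := ℝ) d)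
    have a7 := mul_le_mul_of_nonneg_left a5 (Nat.cast_nonneg (α := ℝ) d)
    refine ⟨a0, ?_, fun hz' => ?_⟩
    · have b1 := log_le_log (mul_pos a2 a1) (up z hz)
      rw [log_mul a2.ne' a1.ne', log_mul (by positivity) (by positivity), log_pow _ d] at b1
      linarith [le_abs_self (log (A₁ ^ 2 + A₂ ^ 2)), abs_nonneg (d * log n - log (a ^ 2))]
    · have b0 : ‖Ψ z 0‖ ^ 2 * ‖φ z‖ ^ 2 ≤ H4.sq (Ψ z) * ‖φ z‖ ^ 2 := by
        rw [sq_two]
        exact mul_le_mul_of_nonneg_right (le_add_of_nonneg_right (by positivity)) a1.le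
      have b1 := log_le_log (by positivity) ((lo z hz hz').trans b0)
      rw [log_mul a2.ne' a1.ne', log_mul (by positivity) (by positivity), log_pow _ d] at b1
      linarith [abs_nonneg (log (A₁ ^ 2 + A₂ ^ 2)), le_abs_self (d * log n - log (a ^ 2))]
  · refine ae.mono fun z hz0 hz hz' => ?_
    have n1 := isOpen_ball.mem_nhds (s1 hz)
    have cP := ((H62.ev_diff hF.1 P).differentiableAt n1).continuousAt
    have cQ := ((H62.ev_diff hF.1 Q).differentiableAt n1).continuousAt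
    have b1 := (Mer.eq (A := {z}) (fun w hw => Or.inl (hw ▸ hz')) rfl
      (cP.div cQ (hz0 (s1 hz))) (hρ z hz)).2
    filter_upwards [b1, cQ.eventually_ne (hz0 (s1 hz)), isOpen_ball.mem_nhds (s2 hz)]
      with w b2 b3 b4
    rw [e1 w b4] at b3
    refine ⟨right_ne_zero_of_mul b3, ?_⟩
    rw [b2, Pi.div_apply, e0 w b4, e1 w b4, mul_div_mul_left _ _ (left_ne_zero_of_mul b3),
      div_mul_cancel₀ _ (right_ne_zero_of_mul b3)]

theorem good3 : Lift2Stmt → Good3Stmt := by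
  intro hLi C n d F B P Q ρ c₀ s a hOk hΩ hT hP hQ' ha H
  have hG := R1.green
  have hL := R1.lapRule
  have hQ := R1.lapQ
  have hM := R1.minor
  obtain ⟨A, hA, hd⟩ := disc hM hLi (H26.comp hG hQ) hP hQ'
  obtain ⟨c, hc, hc'⟩ : ∃ c, 1 ≤ c ∧ c₀ ≤ c := ⟨max c₀ 1, le_max_right _ _, le_max_left _ _⟩
  obtain ⟨η, hη, hη'⟩ : ∃ η, 0 < η ∧ 4 * η * c = 1 := ⟨1 / (4 * c), by positivity, by field_simp⟩
  have H' : ∀ᶠ k in atTop, TF c₀ (ball 0 (s k)) (B k) (C.g k) ∧
      ∃ (Ψ : ℂ → Fin 2 → ℂ) (K : ℝ), (1 ≤ K ∧ log K ≤ A + C.T k) ∧ Crv (ball 0 (s k)) Ψ ∧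
        (∀ z ∈ ball (0 : ℂ) (s k), z ∈ B k → H4.sq (Ψ z) ≤ K * ‖Ψ z 0‖ ^ 2) ∧
        ∫ z, lam Ψ z * C.g k z ≤ (2 * d + 1) * C.T k ∧
        ∀ᵐ z, z ∈ ball (0 : ℂ) (s k) → AnalyticAt ℂ (ρ k) z →
          ∀ᶠ w in 𝓝 z, Ψ w 1 ≠ 0 ∧ Ψ w 0 = ρ k w * Ψ w 1 := by
    filter_upwards [H, hT.eventually_ge_atTop (2 * ((|log A| + |d * log n|) * c)), ha η hη]
      with k ⟨a1, a2, a3, a4, a5, a6⟩ hk hk'
    rw [(hΩ k).1] at a2 a6
    have hT0 := hOk.2.2.1 k
    obtain ⟨Ψ, b1, b2, b3, b4⟩ := hd (exp (-(η * C.T k))) _ (F k) (B k) (C.g k) (ρ k) c₀ (exp_pos _)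
      (hΩ k).2 a1 a2 a4 (fun z hz =>
        ⟨(mul_le_mul_of_nonneg_right hk' (by positivity)).trans (a5 z hz).1,
          (mul_le_mul_of_nonneg_right hk' (by positivity)).trans (a5 z hz).2⟩) a6
    have e1 : 0 ≤ η * C.T k := by positivity
    have e2 : η * C.T k * c = C.T k / 4 := by linear_combination C.T k / 4 * hη'
    refine ⟨a2, Ψ, _, ⟨le_add_of_nonneg_right (by positivity), ?_⟩, b1, b2, b3.trans ?_, b4⟩
    · have e3 : 1 ≤ exp (2 * (η * C.T k)) := one_le_exp (by positivity)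
      have e4 : 1 + A / exp (-(η * C.T k)) ^ 2 ≤ (1 + A) * exp (2 * (η * C.T k)) := by
        rw [← exp_nat_mul, div_eq_mul_inv, ← exp_neg]
        push_cast
        rw [show -(2 * -(η * C.T k)) = 2 * (η * C.T k) by ring]
        linarith
      refine (log_le_log (by positivity) e4).trans ?_
      rw [log_mul (by positivity) (by positivity), log_exp]
      nlinarith [log_le_sub_one_of_pos (by positivity : 0 < 1 + A)]
    · have := mul_le_mul_of_nonneg_left a3 (Nat.cast_nonneg (α := ℝ) d)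
      have e3 : |d * log n - log (exp (-(η * C.T k)) ^ 2)| ≤ |d * log n| + 2 * (η * C.T k) := by
        rw [log_pow, log_exp]
        refine (abs_sub _ _).trans (add_le_add_right (le_of_eq ?_) _)
        rw [abs_of_nonpos (by push_cast; linarith)]
        push_cast
        ring
      have e4 := mul_le_mul_of_nonneg_left hc'
        (by positivity : 0 ≤ |log A| + |d * log n - log (exp (-(η * C.T k)) ^ 2)|)
      have e5 := mul_le_mul_of_nonneg_right e3 (by linarith : 0 ≤ c)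
      nlinarith
  refine ⟨⟨2 * d + 1, ?_⟩, fun ε hε => ?_⟩
  · filter_upwards [H'] with k ⟨a2, Ψ, K, _, b1, _, b3, b4⟩
    obtain ⟨-, q, -⟩ := hQ 2 _ Ψ isOpen_ball b1
    obtain ⟨c1, c2⟩ := mul_cont isOpen_ball q.1 a2.1.1.continuous a2.1.2.1 a2.1.2.2
    refine ⟨fun z => ENNReal.ofReal (lam Ψ z * C.g k z), c1.measurable.ennreal_ofReal,
      b4.mono fun z b hz => ENNReal.ofReal_le_ofReal ?_, lint_le c2 (fun z => ?_) b3⟩
    · obtain ⟨hz1, hz2⟩ := hz
      rw [(hΩ k).1] at hz1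
      rw [mul_comm]
      exact mul_le_mul_of_nonneg_right (lam_ge hM hz2.differentiableAt
        (b1.1.differentiableAt (isOpen_ball.mem_nhds hz1)) (b hz1 hz2)) (hOk.2.1 k z)
    · by_cases hz : z ∈ ball (0 : ℂ) (s k)
      · exact mul_nonneg (q.2 z hz) (hOk.2.1 k z)
      · rw [image_eq_zero_of_notMem_tsupport fun h => hz (a2.1.2.2 h), mul_zero]
  · set s₀ : ℝ := 2 + 648 * (2 * d + 1) / ε with hs₀
    have hs : 2 ≤ s₀ := le_add_of_nonneg_right (by positivity)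
    refine ⟨exp (-s₀ / 2), exp_pos _, ?_⟩
    obtain ⟨δ, hδ, hδ'⟩ : ∃ δ, 0 < δ ∧ 324 * δ * c = ε :=
      ⟨ε / (324 * c), by positivity, by field_simp⟩
    filter_upwards [H', hT.eventually_ge_atTop (324 * ((δ * (s₀ + A) - log δ) * c) / ε)]
      with k ⟨a2, Ψ, K, ⟨hK, hK'⟩, b1, b2, b3, b4⟩ hk
    have hj : ∀ j : ℕ, (0 : ℝ) < 1 / (j + 1) := fun j => Nat.one_div_pos_of_nat
    choose Hf c1 c2 c3 c4 using fun j : ℕ => core hG hL hQ isOpen_ball a2 b1 hK b2 hs (hj j)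
      ((div_le_one (by positivity)).2 (le_add_of_nonneg_left j.cast_nonneg))
    have c5 : ∀ j z, 0 ≤ Hf j z := fun j z =>
      le_trans (mul_nonneg (by positivity) (hOk.2.1 k z)) (c4 j z)
    have hm : ∀ j, Measurable fun z => ENNReal.ofReal (81 * Hf j z) := fun j =>
      ((c1 j).const_mul 81).measurable.ennreal_ofReal
    refine ⟨fun z => liminf (fun j => ENNReal.ofReal (81 * Hf j z)) atTop, .liminf hm,
      b4.mono fun z b hz => ?_, (lintegral_liminf_le hm).trans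
        (liminf_le_of_frequently_le' (.of_forall fun j => ?_))⟩
    · obtain ⟨⟨hz1, hz2⟩, hz3⟩ := hz
      rw [(hΩ k).1] at hz1
      by_cases h0 : ρ k z = 0
      · simp [Pc, h0]
      · have t0 : 0 < ‖ρ k z‖ ^ 2 := pow_pos (norm_pos_iff.2 h0) 2
        have t1 : ‖ρ k z‖ ^ 2 < exp (-s₀) := by
          refine (pow_lt_pow_left₀ hz3 (norm_nonneg _) two_ne_zero).trans_eq ?_
          rw [← exp_nat_mul]
          congr 1
          push_cast
          ring
        refine le_liminf_of_le (by isBoundedDefault) ?_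
        filter_upwards [tendsto_one_div_add_atTop_nhds_zero_nat.eventually (ge_mem_nhds t0)]
          with j hj'
        refine ENNReal.ofReal_le_ofReal ?_
        have h1 := mul_le_mul_of_nonneg_left
          (pw hz2.differentiableAt (b hz1 hz2) (hj j) hj' hs t1) (hOk.2.1 k z)
        linarith [c4 j z]
    · refine lint_le ((c2 j).const_mul 81) (fun z => mul_nonneg (by norm_num) (c5 j z)) ?_
      rw [integral_const_mul]
      have hT0 := hOk.2.2.1 k
      have h1 : 4 / (s₀ - 1) * (∫ z, lam Ψ z * C.g k z) ≤ ε / 162 * C.T k := by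
        refine (mul_le_mul_of_nonneg_left b3 (div_nonneg (by norm_num) (by linarith))).trans ?_
        rw [← mul_assoc]
        refine mul_le_mul_of_nonneg_right ?_ hT0.le
        rw [div_mul_eq_mul_div, div_le_iff₀ (by linarith), hs₀]
        have : ε / 162 * (648 * (2 * d + 1) / ε) = 4 * (2 * d + 1) := by
          field_simp
          norm_num
        nlinarith
      rw [div_le_iff₀ hε] at hk
      have l0 := log_nonneg hK
      have l1 : 0 ≤ log (s₀ + log K) := log_nonneg (by linarith)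
      have l2 := log_le_sub_one_of_pos (mul_pos hδ (by linarith : 0 < s₀ + log K))
      rw [log_mul hδ.ne' (by linarith : 0 < s₀ + log K).ne'] at l2
      have l3 : log (s₀ + log K) ≤ δ * (s₀ + A) - log δ + δ * C.T k := by
        nlinarith [mul_le_mul_of_nonneg_left hK' hδ.le]
      have l4 := mul_le_mul_of_nonneg_right l3 (by linarith : 0 ≤ c)
      have l5 : δ * C.T k * c = ε / 324 * C.T k := by linear_combination C.T k / 324 * hδ'
      nlinarith [c3 j, mul_le_mul_of_nonneg_left hc' l1]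

end

lemma log_le_lin {T x : ℝ} (hT : 1 ≤ T) (hx : 0 ≤ x) : log (1 + x) ≤ log T + x / T := by
  have h2 := log_le_sub_one_of_pos (x := (1 + x) / T) (by positivity)
  rw [log_div (by positivity) (by positivity), add_div] at h2
  linarith [div_le_one_of_le₀ hT (by positivity : 0 ≤ T)]

open H26 hiding log_le_lin in
theorem final2 : Final2Stmt := by
  intro C B g c₀ κ hC hκ hT H HY HV
  have hη : 0 < κ / 8 := by positivity
  obtain ⟨v, ⟨e, e', E, a', p1, p2, p3, p4⟩, hv⟩ := HV _ hη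
  obtain ⟨A, hA, p5⟩ := p4.pos hC
  obtain ⟨c, hc, hc'⟩ : ∃ c, 0 < c ∧ c₀ ≤ c := ⟨max c₀ 1, by positivity, le_max_left _ _⟩
  obtain ⟨ε, hε, hε'⟩ : ∃ ε, 0 < ε ∧ ε * c = κ / 8 :=
    ⟨κ / (8 * c), by positivity, by field_simp⟩
  obtain ⟨k, ⟨hB, ⟨g1, g2, g3, g4⟩, g5, hu, h1⟩, ⟨⟨g6, -⟩, -, Y, y1, y2, y3, y4⟩, ⟨hAS, hub⟩,
    ⟨f₁, -, f12, f13⟩, ⟨f₂, m2, f22, f23⟩, ⟨f₃, m3, f32, f33⟩, hv, T1, T2⟩ :=
    (H.and (((HY _ hε).and (HY _ hη)).and (p1.and (p2.and (p3.and (p5.and (hv.and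
      ((hT.eventually_ge_atTop 1).and (hT.eventually_gt_atTop
        (((|a'| - log ε) * c + A) / (κ / 8))))))))))).exists
  have hO := hC.1 k
  have G0 := hC.2.1 k
  set T := C.T k
  have T0 : 0 < T := by linarith
  have i1 := int_mul hO hAS.1 (test_lap g1)
  have i2 := int_mul hO hAS.2.1 g1
  have i3 := int_fd hO hAS.2.2.1 g1
  have i4 := int_mul hO (hu.locallyIntegrableOn hO.measurableSet) (test_lap g1)
  have i5 : Integrable fun z => (C.u k z + v k z) * lap (g k) z := by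
    simp only [add_mul]; exact i4.add i1
  have b0 := hAS.2.2.2 _ g1 g2
  rw [integral_add (by exact i1.add i2) i3, integral_add i1 i2] at b0
  have b1 : ∫ z, e k z * g k z ≤ κ / 8 * T := by
    refine int_le i2 (f12.mono fun z hz => ?_) f13 (by positivity)
    by_cases h : z ∈ C.Ω k
    · refine le_trans (ENNReal.ofReal_le_ofReal ?_) (hz h)
      nlinarith [le_abs_self (e k z), abs_nonneg (e k z), g2 z, g5 z]
    · simp [test_zero g1 h]
  have b2 : ∫ z, (2 * fderiv ℝ (g k) z (E k z) - Y z) ≤ κ / 8 * T := by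
    refine int_le ((i3.const_mul _).sub y1) (f22.mono fun z hz => ?_) f23 (by positivity)
    by_cases h : z ∈ C.Ω k
    · refine le_trans (ENNReal.ofReal_le_ofReal ?_) (hz h)
      have h2 := (le_abs_self _).trans (abs_fderiv_le (g k) z (E k z))
      have h3 : (2 * (‖grad (g k) z‖ * ‖E k z‖)) ^ 2 ≤ (Y z + C.g k z * ‖E k z‖ ^ 2) ^ 2 := by
        nlinarith [mul_le_mul_of_nonneg_right (y4 z) (sq_nonneg ‖E k z‖),
          sq_nonneg (Y z - C.g k z * ‖E k z‖ ^ 2)]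
      linarith [abs_le_of_sq_le_sq h3 (add_nonneg (y2 z) (mul_nonneg (G0 z) (sq_nonneg _))),
        le_abs_self (2 * (‖grad (g k) z‖ * ‖E k z‖))]
    · rw [ENNReal.ofReal_of_nonpos (by simp [test_fderiv g1 h, y2 z])]; exact zero_le
  rw [integral_sub (i3.const_mul _) y1, integral_const_mul] at b2
  have l0 : 0 ≤ log T := log_nonneg T1
  have l1 : 1 ≤ exp (ε * T) := one_le_exp (by positivity)
  have l2 : log (T * exp (ε * T)) = log T + ε * T := by
    rw [log_mul T0.ne' (exp_pos _).ne', log_exp]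
  have b3 : ∫ z, T * ((B k)ᶜ.indicator (fun z => (C.u k z + v k z) * lap (g k) z) z -
      (|a'| + (log T + ε * T)) * |lap (g k) z|) ≤ A * T := by
    refine int_le (((i5.indicator hB.compl).sub ((int_abs_lap g1).const_mul _)).const_mul _)
      ?_ f33 (by positivity)
    filter_upwards [f32, hub] with z hz hw
    have n : 0 ≤ T * ((|a'| + (log T + ε * T)) * |lap (g k) z|) := by positivity
    by_cases hb : z ∈ (B k)ᶜ
    swap
    · rw [indicator_of_notMem hb, ENNReal.ofReal_of_nonpos (by linarith)]; exact zero_le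
    rw [indicator_of_mem hb]
    by_cases h : z ∈ C.Ω k
    · refine le_trans (ENNReal.ofReal_le_ofReal ?_) (hz h)
      have h2 := mul_le_mul_of_nonneg_right (((hw h).2.trans (add_le_add (le_abs_self _)
        (log_le_lin (one_le_mul_of_one_le_of_one_le T1 l1) (hw h).1)))) (g4 z hb)
      rw [l2] at h2
      have h3 := mul_le_mul_of_nonneg_left (g6 z hb) (div_nonneg (hw h).1 (exp_pos (ε * T)).le)
      have h4 : e' k z / exp (ε * T) * (exp (ε * T) * C.g k z) = C.g k z * e' k z := by field_simp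
      have h5 : T * (e' k z / (T * exp (ε * T)) * lap (g k) z) =
          e' k z / exp (ε * T) * lap (g k) z := by field_simp
      rw [abs_of_nonneg (g4 z hb)]
      nlinarith [mul_le_mul_of_nonneg_left h2 T0.le]
    · simp [test_zero (test_lap g1) h]
  rw [integral_const_mul, mul_comm A, mul_le_mul_iff_right₀ T0, integral_sub (i5.indicator hB.compl)
    ((int_abs_lap g1).const_mul _), integral_const_mul, integral_indicator hB.compl] at b3
  have b4 := integral_add_compl hB i5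
  have b5 : ∫ z, (C.u k z + v k z) * lap (g k) z =
      (∫ z, C.u k z * lap (g k) z) + ∫ z, v k z * lap (g k) z := by
    simpa only [add_mul] using integral_add i4 i1
  have b6 := mul_le_mul_of_nonneg_left (g3.trans hc') (by positivity : 0 ≤ |a'| + (log T + ε * T))
  have b7 := log_le_sub_one_of_pos (mul_pos hε T0)
  rw [log_mul hε.ne' T0.ne'] at b7
  rw [div_lt_iff₀ hη] at T2
  have b8 := mul_le_mul_of_nonneg_right b7 hc.le
  have b9 : ε * T * c = κ / 8 * T := by linear_combination T * hε'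
  nlinarith

end Pool.Agent.MP_c69980_ag.H41
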